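import Pool.Agent.MVD.Stmts

/-!
Row PEN: the pentagon, in the form of an invariant set.
-/

namespace Pool.Agent.MVD.H21

open Pool.Agent.Helper14_MV Pool.Agent.Helper2_MV

theorem pen : PenStmt := by
  intro β hm ρ σ τ A B C hρ hσ hτ hle kA kB kC hAB hBA w0 w1 hA0 hA1 h01 hsup
  have hfin := hm ρ σ τ hρ hσ hτ hle _ _ hsup h01
  have kA' : ∀ w w' : Word, ρ.r w w' → A w.toList → A w'.toList := by
    intro w w' h
    exact kA _ _ (by
      show ρ.r (FreeMonoid.ofList w.toList) (FreeMonoid.ofList w'.toList)
      rw [FreeMonoid.ofList_toList, FreeMonoid.ofList_toList]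
      exact h)
  have kB' : ∀ w w' : Word, σ.r w w' → B w.toList → B w'.toList := by
    intro w w' h
    exact kB _ _ (by
      show σ.r (FreeMonoid.ofList w.toList) (FreeMonoid.ofList w'.toList)
      rw [FreeMonoid.ofList_toList, FreeMonoid.ofList_toList]
      exact h)
  have kC' : ∀ w w' : Word, τ.r w w' → C w.toList → C w'.toList := by
    intro w w' h
    exact kC _ _ (by
      show τ.r (FreeMonoid.ofList w.toList) (FreeMonoid.ofList w'.toList)
      rw [FreeMonoid.ofList_toList, FreeMonoid.ofList_toList]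
      exact h)
  have hinv : ∀ w w' : Word, (FIC.sup ρ (FIC.inf σ τ)).r w w' → A w.toList → A w'.toList := by
    intro w w' h
    induction h with
    | refl => exact id
    | tail _ h3 ih =>
      intro hw
      have hw' := ih hw
      rcases h3 with h3 | h3
      · exact kA' _ _ h3 hw'
      · obtain ⟨h3s, h3t⟩ := h3
        obtain ⟨hB, hC⟩ := hAB _ hw'
        exact hBA _ (kB' _ _ h3s hB) (kC' _ _ h3t hC)
  exact hA1 (hinv _ _ hfin hA0)

end Pool.Agent.MVD.H21
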