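import Pool.Agent.MVD.Stmts

/-!
# MVD, row SHP (helper21): the sets `SS g` are preserved
-/

namespace Pool.Agent.MVD.H21

open Pool.Agent.Helper14_MV Pool.Agent.Helper2_MV

/-! ### the projections `pj` -/

theorem pj_y (j k l : ℕ) : pj j k (3 * l) = if l = j then [0] else [] := by
  unfold pj
  rw [if_pos (by omega : 3 * l % 3 = 0)]
  by_cases h : l = j
  · rw [if_pos (by omega), if_pos h]
  · rw [if_neg (by omega), if_neg h]

theorem pj_z (j k x : ℕ) : pj j k (3 * x + 1) = if x % 5 = k then [3 * (x / 5) + 1] else [] := by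
  unfold pj
  have h1 : (3 * x + 1) / 3 = x := by omega
  rw [if_neg (by omega), if_pos (by omega), h1]

theorem pj_s (j k x : ℕ) :
    pj j k (3 * (x + 1) + 2) = if x % 5 = k then [3 * (x / 5 + 1) + 2] else [] := by
  unfold pj
  have h1 : (3 * (x + 1) + 2) / 3 - 1 = x := by omega
  rw [if_neg (by omega), if_neg (by omega), if_neg (by omega), h1]

theorem pj_2 (j k : ℕ) : pj j k 2 = [2] := by
  unfold pj
  rw [if_neg (by omega), if_neg (by omega), if_pos rfl]

theorem pj_len (j k c : ℕ) : (pj j k c).length ≤ 1 := by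
  unfold pj
  split_ifs <;> simp

theorem pj_zero {j k c : ℕ} (h : 0 ∈ pj j k c) : c = 3 * j := by
  unfold pj at h
  split_ifs at h with h1 h2 <;> first | assumption | simp at h

theorem pj_one {j k e c : ℕ} (hk : k < 5) (h : 3 * e + 1 ∈ pj j k c) :
    c = 3 * (5 * e + k) + 1 := by
  unfold pj at h
  split_ifs at h <;> simp at h <;> omega

/-! ### the words `Wm` -/

theorem Bw_append (R1 R2 : List ℕ) (B : ℕ → List ℕ) : Bw (R1 ++ R2) B = Bw R1 B ++ Bw R2 B := by
  unfold Bw
  rw [List.flatMap_append]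

theorem Bw_cons (r : ℕ) (R : List ℕ) (B : ℕ → List ℕ) :
    Bw (r :: R) B = B r ++ (3 * r + 2) :: Bw R B := by
  simp [Bw]

theorem mem_Bw {R : List ℕ} {B : ℕ → List ℕ} {c : ℕ} (h : c ∈ Bw R B) :
    ∃ r ∈ R, c ∈ B r ∨ c = 3 * r + 2 := by
  unfold Bw at h
  rw [List.mem_flatMap] at h
  obtain ⟨r, hr, hc⟩ := h
  rw [List.mem_append, List.mem_singleton] at hc
  exact ⟨r, hr, hc⟩

theorem mem_Bw_of {R : List ℕ} {B : ℕ → List ℕ} {c r : ℕ} (hr : r ∈ R) (hc : c ∈ B r) :
    c ∈ Bw R B := by
  unfold Bw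
  rw [List.mem_flatMap]
  exact ⟨r, hr, by simp [hc]⟩

/-- the place part -/
def pp (P : List ℕ) : List ℕ := P.flatMap (fun e => [3 * e + 1, 3 * (e + 1) + 2])

theorem Bw_place (P L : List ℕ) :
    Bw (P.map (fun e => e + 1)) (fun r => if r = 0 then L else [3 * (r - 1) + 1]) = pp P := by
  unfold Bw pp
  rw [List.flatMap_map]
  apply List.flatMap_congr
  intro e _
  simp

theorem Wm_eq (P Q L : List ℕ) : Wm P Q L = pp P ++ (L ++ 2 :: pp Q) := by
  unfold Wm
  rw [Bw_append, Bw_place, Bw_cons, Bw_place]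
  simp

theorem pp_star (j k : ℕ) (hk : k < 5) (P : List ℕ) : (pp (star P)).flatMap (pj j k) = pp P := by
  unfold pp star
  rw [List.flatMap_assoc, List.flatMap_assoc]
  apply List.flatMap_congr
  intro i _
  have h5 : List.range 5 = [0, 1, 2, 3, 4] := rfl
  have e0 : (5 * i + 0) / 5 = i ∧ (5 * i + 0) % 5 = 0 := by omega
  have e1 : (5 * i + 1) / 5 = i ∧ (5 * i + 1) % 5 = 1 := by omega
  have e2 : (5 * i + 2) / 5 = i ∧ (5 * i + 2) % 5 = 2 := by omega
  have e3 : (5 * i + 3) / 5 = i ∧ (5 * i + 3) % 5 = 3 := by omega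
  have e4 : (5 * i + 4) / 5 = i ∧ (5 * i + 4) % 5 = 4 := by omega
  rw [h5]
  simp only [List.map_cons, List.map_nil, List.flatMap_cons, List.flatMap_nil, pj_z, pj_s,
    List.append_nil, e0.1, e0.2, e1.1, e1.2, e2.1, e2.2, e3.1, e3.2, e4.1, e4.2]
  interval_cases k <;> simp

theorem Wm_flat (P Q L : List ℕ) (j k : ℕ) (hk : k < 5) :
    (Wm (star P) (star Q) L).flatMap (pj j k) = Wm P Q (L.flatMap (pj j k)) := by
  rw [Wm_eq, Wm_eq, List.flatMap_append, List.flatMap_append, List.flatMap_cons, pp_star _ _ hk,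
    pp_star _ _ hk, pj_2]
  rfl

/-! ### lifting of `Btw` -/

theorem lift_split (f : ℕ → List ℕ) (hf : ∀ c, (f c).length ≤ 1) {X x : ℕ}
    (hX : ∀ c, x ∈ f c → c = X) : ∀ (w a r : List ℕ), w.flatMap f = a ++ x :: r →
      ∃ w1 w2, w = w1 ++ X :: w2 ∧ w1.flatMap f = a ∧ w2.flatMap f = r := by
  intro w
  induction w with
  | nil =>
    intro a r h
    simp at h
  | cons d w ih =>
    intro a r h
    rw [List.flatMap_cons] at h
    rcases hd : f d with _ | ⟨t, _ | ⟨t', l⟩⟩
    · rw [hd, List.nil_append] at h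
      obtain ⟨w1, w2, h1, h2, h3⟩ := ih a r h
      exact ⟨d :: w1, w2, by rw [h1]; rfl, by rw [List.flatMap_cons, hd, h2]; rfl, h3⟩
    · rw [hd] at h
      cases a with
      | nil =>
        rw [List.nil_append, List.cons_append, List.nil_append, List.cons.injEq] at h
        have h4 : d = X := hX d (by rw [hd, h.1]; simp)
        exact ⟨[], w, by rw [h4]; rfl, rfl, h.2⟩
      | cons t' a =>
        rw [List.cons_append, List.nil_append, List.cons_append, List.cons.injEq] at h
        obtain ⟨w1, w2, h1, h2, h3⟩ := ih a r h.2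
        exact ⟨d :: w1, w2, by rw [h1]; rfl, by rw [List.flatMap_cons, hd, h2, h.1]; rfl, h3⟩
    · have := hf d
      rw [hd] at this
      simp at this

theorem lift_btw (f : ℕ → List ℕ) (hf : ∀ c, (f c).length ≤ 1) {X Y x y : ℕ}
    (hX : ∀ c, x ∈ f c → c = X) (hY : ∀ c, y ∈ f c → c = Y) {w : List ℕ}
    (h : Btw x y (w.flatMap f)) : Btw X Y w := by
  obtain ⟨a, b, c, h1, h2⟩ := h
  obtain ⟨w1, w2, h3, h4, h5⟩ := lift_split f hf hX w a _ h1
  obtain ⟨w3, w4, h6, h7, h8⟩ := lift_split f hf hX w2 b _ h5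
  refine ⟨w1, w3, w4, by rw [h3, h6], ?_⟩
  rw [← h7, List.mem_flatMap] at h2
  obtain ⟨d, hd, hyd⟩ := h2
  rwa [← hY d hyd]

theorem mid_block {U M V a b c : List ℕ} {X : ℕ} (hU : X ∉ U) (hV : X ∉ V)
    (h : U ++ (M ++ V) = a ++ X :: (b ++ X :: c)) : ∀ y ∈ b, y ∈ M := by
  have h1 : ∃ a', M ++ V = a' ++ X :: (b ++ X :: c) := by
    rcases List.append_eq_append_iff.1 h with ⟨a', -, h2⟩ | ⟨c', h2, h3⟩
    · exact ⟨a', h2⟩
    · cases c' with
      | nil => exact ⟨[], h3.symm⟩
      | cons t c' =>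
        rw [List.cons_append, List.cons.injEq] at h3
        exact absurd (by rw [h2, h3.1]; simp) hU
  obtain ⟨a', h1⟩ := h1
  have h2 : M ++ V = (a' ++ X :: b) ++ X :: c := by
    rw [h1]
    simp
  rcases List.append_eq_append_iff.1 h2 with ⟨a'', -, h3⟩ | ⟨c', h3, -⟩
  · exact absurd (by rw [h3]; simp) hV
  · intro y hy
    rw [h3]
    simp [hy]

/-! ### the main blocks -/

theorem cc_z {m k E : ℕ} (hk : k < 5) (hE : E < 5 * m) :
    (cc m k).count (3 * E + 1) = if E % 5 = k then 1 else 0 := by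
  unfold cc
  have hnd : ((List.range m).map (fun i => 3 * (5 * i + k) + 1)).Nodup :=
    List.Nodup.map (fun a b h => by
      have h' : 3 * (5 * a + k) + 1 = 3 * (5 * b + k) + 1 := h
      omega) List.nodup_range
  split_ifs with h
  · refine List.count_eq_one_of_mem hnd (List.mem_map.2 ⟨E / 5, List.mem_range.2 (by omega), ?_⟩)
    omega
  · rw [List.count_eq_zero, List.mem_map]
    rintro ⟨i, -, hi⟩
    omega

theorem cc_y {m k l : ℕ} : (cc m k).count (3 * l) = 0 := by
  unfold cc
  rw [List.count_eq_zero, List.mem_map]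
  rintro ⟨i, -, hi⟩
  omega

theorem Lg_z {m E : ℕ} (hE : E < 5 * m) : (Lg m 1).count (3 * E + 1) = 1 := by
  unfold Lg
  simp only [List.count_append, cc_z (by norm_num : 0 < 5) hE, cc_z (by norm_num : 1 < 5) hE,
    cc_z (by norm_num : 2 < 5) hE, cc_z (by norm_num : 3 < 5) hE, cc_z (by norm_num : 4 < 5) hE]
  have h : ∀ l : List ℕ, (∀ a ∈ l, a % 3 = 0) → l.count (3 * E + 1) = 0 := by
    intro l hl
    rw [List.count_eq_zero]
    intro hm
    have := hl _ hm
    omega
  rw [h _ (by simp), h _ (by simp), h _ (by simp), h _ (by simp), h _ (by simp), h _ (by simp)]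
  have : E % 5 < 5 := Nat.mod_lt _ (by norm_num)
  interval_cases h5 : E % 5 <;> simp

theorem Lg_y {m l : ℕ} (hl : l < 4) : (Lg m 1).count (3 * l) = 2 := by
  unfold Lg
  simp only [List.count_append, cc_y]
  interval_cases l <;> simp

theorem cc_mem {m k c : ℕ} (hk : k < 5) (h : c ∈ cc m k) : ∃ E < 5 * m, c = 3 * E + 1 := by
  unfold cc at h
  rw [List.mem_map] at h
  obtain ⟨i, hi, rfl⟩ := h
  rw [List.mem_range] at hi
  exact ⟨5 * i + k, by omega, rfl⟩

theorem Lg_mem {m c : ℕ} (h : c ∈ Lg m 1) : (∃ E < 5 * m, c = 3 * E + 1) ∨ ∃ l < 4, c = 3 * l := by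
  unfold Lg at h
  simp only [List.mem_append, List.mem_cons, List.not_mem_nil, or_false] at h
  have hv : ∀ i : Fin 4, ∃ l < 4, 3 * ((1 : Equiv.Perm (Fin 4)) i).val = 3 * l := fun i =>
    ⟨((1 : Equiv.Perm (Fin 4)) i).val, ((1 : Equiv.Perm (Fin 4)) i).isLt, rfl⟩
  rcases h with ((((((((((h | h) | h) | h) | h) | h) | h) | h) | h) | h) | h)
  · rw [h]; exact Or.inr (hv 0)
  · exact Or.inl (cc_mem (by norm_num) h)
  · rw [h]; exact Or.inr (hv 1)
  · exact Or.inl (cc_mem (by norm_num) h)
  · rcases h with h | h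
    · rw [h]; exact Or.inr (hv 0)
    · rw [h]; exact Or.inr (hv 2)
  · exact Or.inl (cc_mem (by norm_num) h)
  · rcases h with h | h
    · rw [h]; exact Or.inr (hv 1)
    · rw [h]; exact Or.inr (hv 3)
  · exact Or.inl (cc_mem (by norm_num) h)
  · rw [h]; exact Or.inr (hv 2)
  · exact Or.inl (cc_mem (by norm_num) h)
  · rw [h]; exact Or.inr (hv 3)

theorem mem_star {P : List ℕ} {E : ℕ} : E ∈ star P ↔ E / 5 ∈ P := by
  unfold star
  rw [List.mem_flatMap]
  constructor
  · rintro ⟨i, hi, h⟩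
    rw [List.mem_map] at h
    obtain ⟨k, hk, rfl⟩ := h
    rw [List.mem_range] at hk
    have : (5 * i + k) / 5 = i := by omega
    rwa [this]
  · intro h
    refine ⟨E / 5, h, List.mem_map.2 ⟨E % 5, List.mem_range.2 (by omega), by omega⟩⟩

theorem star_append (P Q : List ℕ) : star (P ++ Q) = star P ++ star Q := by
  unfold star
  rw [List.flatMap_append]

theorem star_nodup {P : List ℕ} (h : P.Nodup) : (star P).Nodup := by
  unfold star
  rw [List.nodup_flatMap]
  refine ⟨fun i _ => List.Nodup.map (fun a b hab => by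
    have h' : 5 * i + a = 5 * i + b := hab
    omega) List.nodup_range, ?_⟩
  refine List.Pairwise.imp ?_ h
  intro a b hab c hca hcb
  rw [List.mem_map] at hca hcb
  obtain ⟨k, hk, rfl⟩ := hca
  obtain ⟨k', hk', h'⟩ := hcb
  rw [List.mem_range] at hk hk'
  omega

theorem mem_range5 {P Q : List ℕ} {m : ℕ} (h : (P ++ Q).Perm (List.range m)) (E : ℕ) :
    (E ∈ star P ∨ E ∈ star Q) ↔ E < 5 * m := by
  rw [mem_star, mem_star, ← List.mem_append, h.mem_iff, List.mem_range]
  omega

theorem shp (dec : DecStmt) (kp2 : Kp2Stmt) (kpl : KplStmt) (_uni : UniStmt) : ShpStmt := by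
  intro β H2 H3 P Q m hm hPQ hHH g w w' hw hww'
  obtain ⟨L, rfl, hL, hInc⟩ := hw
  let R : List ℕ := (star P).map (fun e => e + 1) ++ 0 :: (star Q).map (fun e => e + 1)
  let B : ℕ → List ℕ := fun r => if r = 0 then L else [3 * (r - 1) + 1]
  have hWm : Wm (star P) (star Q) L = Bw R B := rfl
  have hB0 : B 0 = L := rfl
  have hBs : ∀ E, B (E + 1) = [3 * E + 1] := fun E => rfl
  have hRm : ∀ r, r ∈ R ↔ r = 0 ∨ ∃ E < 5 * m, r = E + 1 := by
    intro r
    show r ∈ (star P).map (fun e => e + 1) ++ 0 :: (star Q).map (fun e => e + 1) ↔ _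
    rw [List.mem_append, List.mem_cons, List.mem_map, List.mem_map]
    constructor
    · rintro (⟨E, hE, rfl⟩ | rfl | ⟨E, hE, rfl⟩)
      · exact Or.inr ⟨E, (mem_range5 hPQ E).1 (Or.inl hE), rfl⟩
      · exact Or.inl rfl
      · exact Or.inr ⟨E, (mem_range5 hPQ E).1 (Or.inr hE), rfl⟩
    · rintro (rfl | ⟨E, hE, rfl⟩)
      · exact Or.inr (Or.inl rfl)
      · rcases (mem_range5 hPQ E).2 hE with h | h
        · exact Or.inl ⟨E, h, rfl⟩
        · exact Or.inr (Or.inr ⟨E, h, rfl⟩)
  have hRnd : R.Nodup := by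
    have h1 : R.Perm (0 :: (star (P ++ Q)).map (fun e => e + 1)) := by
      rw [star_append, List.map_append]
      exact List.perm_middle
    rw [h1.nodup_iff, List.nodup_cons]
    refine ⟨?_, ?_⟩
    · rw [List.mem_map]
      rintro ⟨a, -, ha⟩
      omega
    · refine List.Nodup.map (fun a b hab => ?_) (star_nodup ?_)
      · have h' : a + 1 = b + 1 := hab
        omega
      · rw [hPQ.nodup_iff]
        exact List.nodup_range
  have h0R : 0 ∈ R := (hRm 0).2 (Or.inl rfl)
  have hER : ∀ E < 5 * m, E + 1 ∈ R := fun E hE => (hRm _).2 (Or.inr ⟨E, hE, rfl⟩)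
  have hLm : ∀ c ∈ L, (∃ E < 5 * m, c = 3 * E + 1) ∨ ∃ l < 4, c = 3 * l := fun c hc =>
    Lg_mem (hL.mem_iff.1 hc)
  have hBsf : ∀ r ∈ R, SFr (B r) := by
    intro r hr c hc
    rcases (hRm r).1 hr with rfl | ⟨E, hE, rfl⟩
    · rcases hLm c hc with ⟨E, -, rfl⟩ | ⟨l, -, rfl⟩ <;> omega
    · rw [hBs, List.mem_singleton] at hc
      omega
  rw [hWm] at hww'
  obtain ⟨B', e, hB'sf', hesf, rfl⟩ := dec β H3 R B w' hRnd hBsf hww'
  have hB'sf : ∀ r ∈ R, SFr (B' r) := fun r _ => hB'sf' r
  have hz : ∀ E < 5 * m, (∀ q ∈ R, (B' q).count (3 * E + 1) = if q = 0 ∨ q = E + 1 then 1 else 0) ∧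
      e.count (3 * E + 1) = 0 := by
    intro E hE
    refine kp2 β H2 H3 R B B' e hRnd hBsf hB'sf hesf hww' (3 * E + 1) 0 (E + 1) (by omega) h0R
      (hER E hE) (by omega) fun q hq => ?_
    rcases (hRm q).1 hq with rfl | ⟨E', hE', rfl⟩
    · rw [hB0, hL.count_eq, Lg_z hE, if_pos (Or.inl rfl)]
    · rw [hBs]
      by_cases h : E' = E
      · subst h
        rw [if_pos (Or.inr rfl)]
        simp
      · rw [if_neg (by omega), List.count_eq_zero, List.mem_singleton]
        omega
  have hbtw : ∀ (j : Fin 4) (k : ℕ), (k = j.val ∨ k = j.val + 1) →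
      Btw (3 * (g j).val) (3 * (5 * 0 + k) + 1) (Bw R B' ++ e) := by
    intro j k hk
    have hk5 : k < 5 := by
      have := j.isLt
      omega
    have h1 := (hInc j k hk5).2 hk
    unfold Inc at h1
    have h2 := hww'.sub (pj (g j).val k)
    rw [← hWm, Wm_flat P Q L _ k hk5] at h2
    have h3 : RR β (bw P Q m) ((Bw R B' ++ e).flatMap (pj (g j).val k)) := β.trans h1.symm h2
    exact lift_btw (pj (g j).val k) (pj_len _ _) (fun c h => pj_zero h)
      (fun c h => pj_one hk5 h) (hHH _ h3 0 (by omega))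
  have hy' : ∀ j : Fin 4, (∀ q ∈ R, (B' q).count (3 * (g j).val) = if q = 0 then 2 else 0) ∧
      e.count (3 * (g j).val) = 0 := by
    intro j
    have hj := j.isLt
    rcases kpl β H2 H3 R B B' e hRnd hBsf hB'sf hesf hww' (3 * (g j).val) 0 (by omega) h0R
      (fun q hq => by
        rcases (hRm q).1 hq with rfl | ⟨E', hE', rfl⟩
        · rw [hB0, hL.count_eq, Lg_y (g j).isLt, if_pos rfl]
        · rw [hBs, if_neg (by omega), List.count_eq_zero, List.mem_singleton]
          omega) with ⟨⟨s, hs, hcs, -⟩, he⟩ | ⟨hcs, he, -⟩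
    · rcases eq_or_ne s 0 with h0 | h0
      · subst h0
        exact ⟨hcs, he⟩
      · exfalso
        have key : ∀ k, (k = j.val ∨ k = j.val + 1) → s = k + 1 := by
          intro k hk
          obtain ⟨a, b, c, h1, h2⟩ := hbtw j k hk
          obtain ⟨R1, R2, hR12⟩ := List.append_of_mem hs
          have hnd := hRnd
          rw [hR12] at hnd
          have hs1 : s ∉ R1 := fun h => by
            rw [List.nodup_append] at hnd
            exact hnd.2.2 s h s (by simp) rfl
          have hs2 : s ∉ R2 := fun h => by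
            rw [List.nodup_append] at hnd
            exact (List.nodup_cons.1 hnd.2.1).1 h
          have hno : ∀ R' : List ℕ, (∀ q ∈ R', q ∈ R) → s ∉ R' → 3 * (g j).val ∉ Bw R' B' := by
            intro R' hsub hsR' hmem
            obtain ⟨r, hr, h | h⟩ := mem_Bw hmem
            · have h3 := hcs r (hsub r hr)
              rw [if_neg (fun h4 : r = s => hsR' (h4 ▸ hr)), List.count_eq_zero] at h3
              exact h3 h
            · omega
          have h4 : Bw R1 B' ++ (B' s ++ ((3 * s + 2) :: Bw R2 B' ++ e)) =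
              a ++ 3 * (g j).val :: (b ++ 3 * (g j).val :: c) := by
            rw [← h1, hR12, Bw_append, Bw_cons]
            simp
          have h5 : 3 * (5 * 0 + k) + 1 ∈ B' s := by
            refine mid_block (hno R1 (fun q hq => by rw [hR12]; simp [hq]) hs1) ?_ h4 _ h2
            rw [List.mem_append, List.mem_cons]
            rintro ((h6 | h6) | h6)
            · omega
            · exact hno R2 (fun q hq => by rw [hR12]; simp [hq]) hs2 h6
            · exact List.count_eq_zero.1 he h6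
          have h6 := (hz (5 * 0 + k) (by omega)).1 s hs
          by_contra hne
          rw [if_neg (by omega), List.count_eq_zero] at h6
          exact h6 h5
        have k1 := key j.val (Or.inl rfl)
        have k2 := key (j.val + 1) (Or.inr rfl)
        omega
    · exfalso
      obtain ⟨a, b, c, h1, h2⟩ := hbtw j j.val (Or.inl rfl)
      have h4 : Bw R B' ++ (e ++ []) = a ++ 3 * (g j).val :: (b ++ 3 * (g j).val :: c) := by
        rw [← h1, List.append_nil]
      have h5 : 3 * (5 * 0 + j.val) + 1 ∈ e := by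
        refine mid_block ?_ (by simp) h4 _ h2
        intro hmem
        obtain ⟨r, hr, h | h⟩ := mem_Bw hmem
        · exact List.count_eq_zero.1 (hcs r hr) h
        · omega
      exact List.count_eq_zero.1 (hz (5 * 0 + j.val) (by omega)).2 h5
  have hy : ∀ l < 4, (∀ q ∈ R, (B' q).count (3 * l) = if q = 0 then 2 else 0) ∧
      e.count (3 * l) = 0 := by
    intro l hl
    have h := hy' (g.symm ⟨l, hl⟩)
    rw [Equiv.apply_symm_apply] at h
    exact h
  have hcon : ∀ c ∈ Bw R B' ++ e, c % 3 ≠ 2 →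
      (∃ E < 5 * m, c = 3 * E + 1) ∨ ∃ l < 4, c = 3 * l := by
    intro c hc h2
    by_contra hno
    refine hww'.content H3 (c := c) ?_ hc
    intro hm
    obtain ⟨r, hr, h | h⟩ := mem_Bw hm
    · rcases (hRm r).1 hr with rfl | ⟨E, hE, rfl⟩
      · exact hno (hLm c h)
      · rw [hBs, List.mem_singleton] at h
        exact hno (Or.inl ⟨E, hE, h⟩)
    · omega
  have he0 : e = [] := by
    rw [List.eq_nil_iff_forall_not_mem]
    intro c hc
    rcases hcon c (by simp [hc]) (hesf c hc) with ⟨E, hE, rfl⟩ | ⟨l, hl, rfl⟩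
    · exact List.count_eq_zero.1 (hz E hE).2 hc
    · exact List.count_eq_zero.1 (hy l hl).2 hc
  have hperm : ∀ q ∈ R, (B' q).Perm (B q) := by
    intro q hq
    rw [List.perm_iff_count]
    intro c
    by_cases h1 : ∃ E < 5 * m, c = 3 * E + 1
    · obtain ⟨E, hE, rfl⟩ := h1
      rw [(hz E hE).1 q hq]
      rcases (hRm q).1 hq with rfl | ⟨E', hE', rfl⟩
      · rw [hB0, hL.count_eq, Lg_z hE, if_pos (Or.inl rfl)]
      · rw [hBs]
        by_cases h : E' = E
        · subst h
          rw [if_pos (Or.inr rfl)]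
          simp
        · rw [if_neg (by omega)]
          symm
          rw [List.count_eq_zero, List.mem_singleton]
          omega
    · by_cases h2 : ∃ l < 4, c = 3 * l
      · obtain ⟨l, hl, rfl⟩ := h2
        rw [(hy l hl).1 q hq]
        rcases (hRm q).1 hq with rfl | ⟨E', hE', rfl⟩
        · rw [hB0, hL.count_eq, Lg_y hl, if_pos rfl]
        · rw [hBs, if_neg (by omega)]
          symm
          rw [List.count_eq_zero, List.mem_singleton]
          omega
      · have h3 : c ∉ B' q := by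
          intro hc
          rcases hcon c (by simp [mem_Bw_of hq hc]) (hB'sf' q c hc) with h | h
          · exact h1 h
          · exact h2 h
        have h4 : c ∉ B q := by
          intro hc
          rcases (hRm q).1 hq with rfl | ⟨E', hE', rfl⟩
          · rcases hLm c hc with h | h
            · exact h1 h
            · exact h2 h
          · rw [hBs, List.mem_singleton] at hc
            exact h1 ⟨E', hE', hc⟩
        rw [List.count_eq_zero.2 h3, List.count_eq_zero.2 h4]
  have hW' : Bw R B' ++ e = Wm (star P) (star Q) (B' 0) := by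
    rw [he0, List.append_nil]
    show Bw R B' = Bw R (fun r => if r = 0 then B' 0 else [3 * (r - 1) + 1])
    unfold Bw
    apply List.flatMap_congr
    intro q hq
    rcases (hRm q).1 hq with rfl | ⟨E, hE, rfl⟩
    · simp
    · have h1 := hperm _ hq
      rw [hBs, List.perm_singleton] at h1
      rw [h1]
      simp
  refine ⟨B' 0, hW', (hperm 0 h0R).trans hL, fun j k hk => ?_⟩
  rw [← hInc j k hk]
  have h1 := hww'.sub (pj (g j).val k)
  rw [← hWm, hW', Wm_flat P Q L _ k hk, Wm_flat P Q (B' 0) _ k hk] at h1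
  unfold Inc
  exact ⟨fun h => β.trans h1 h, fun h => β.trans h1.symm h⟩

end Pool.Agent.MVD.H21
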