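import Pool.Agent.MVD.Stmts

/-!
# MVD, row UNI (helper21): the blocks are determined by the word
-/

namespace Pool.Agent.MVD.H21

theorem split_uni {s s' : ℕ} (hs : s % 3 = 2) (hs' : s' % 3 = 2) :
    ∀ (a a' x x' : List ℕ), SFr a → SFr a' → a ++ s :: x = a' ++ s' :: x' →
      a = a' ∧ s = s' ∧ x = x' := by
  intro a
  induction a with
  | nil =>
    intro a' x x' _ ha' h
    cases a' with
    | nil =>
      rw [List.nil_append, List.nil_append, List.cons.injEq] at h
      exact ⟨rfl, h.1, h.2⟩
    | cons c a' =>
      rw [List.nil_append, List.cons_append, List.cons.injEq] at h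
      exact absurd hs (h.1 ▸ ha' c (by simp))
  | cons c a ih =>
    intro a' x x' ha ha' h
    cases a' with
    | nil =>
      rw [List.nil_append, List.cons_append, List.cons.injEq] at h
      exact absurd hs' (h.1 ▸ ha c (by simp))
    | cons c' a' =>
      rw [List.cons_append, List.cons_append, List.cons.injEq] at h
      obtain ⟨h1, h2, h3⟩ := ih a' x x' (fun b hb => ha b (List.mem_cons_of_mem _ hb))
        (fun b hb => ha' b (List.mem_cons_of_mem _ hb)) h.2
      exact ⟨by rw [h.1, h1], h2, h3⟩

theorem uni : UniStmt := by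
  intro R
  induction R with
  | nil =>
    intro B B' e e' _ _ _ _ _ h
    refine ⟨fun r hr => absurd hr (by simp), ?_⟩
    simpa [Bw] using h
  | cons r R ih =>
    intro B B' e e' hnd hB hB' he he' h
    have h1 : ∀ C : ℕ → List ℕ, Bw (r :: R) C = C r ++ (3 * r + 2) :: Bw R C := by
      intro C
      simp [Bw]
    rw [h1, h1, List.append_assoc, List.append_assoc, List.cons_append, List.cons_append] at h
    obtain ⟨h2, -, h3⟩ := split_uni (by omega) (by omega) _ _ _ _ (hB r (by simp))
      (hB' r (by simp)) h
    obtain ⟨h4, h5⟩ := ih B B' e e' (List.nodup_cons.1 hnd).2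
      (fun q hq => hB q (List.mem_cons_of_mem _ hq))
      (fun q hq => hB' q (List.mem_cons_of_mem _ hq)) he he' h3
    refine ⟨fun q hq => ?_, h5⟩
    rcases List.mem_cons.1 hq with rfl | hq
    · exact h2
    · exact h4 q hq

end Pool.Agent.MVD.H21
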